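import Mathlib

namespace Pool.Agent.Results.MP_d56d33_an.NotEquivalent

open MeasureTheory Set Real Filter Topology

/-- `x` solves `x' = -p₀ x - k(t) φ(q₀ x) + f(t)` on `[t₀, T)`: the system with `n = 1`, `m = 0`,
`p(s) = s + p₀`, `q(s) = q₀`. -/
def IsSol (p₀ q₀ : ℝ) (k φ f : ℝ → ℝ) (t₀ : ℝ) (T : EReal) (x : ℝ → ℝ) : Prop :=
  (t₀ : EReal) < T ∧
  (∀ b : ℝ, t₀ ≤ b → (b : EReal) < T → AbsolutelyContinuousOnInterval x t₀ b ∧
    IntervalIntegrable (fun t => φ (q₀ * x t)) volume t₀ b) ∧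
  ∀ᵐ t : ℝ, t₀ ≤ t → (t : EReal) < T → HasDerivAt x (-p₀ * x t - k t * φ (q₀ * x t) + f t) t

/-- Exponential stability of the null solution of the unforced system. -/
def ExpStable (p₀ q₀ : ℝ) (k φ : ℝ → ℝ) : Prop :=
  ∃ ε₁ > 0, ∃ ε₂ > 0, ∀ (t₀ : ℝ) (T : EReal) (x : ℝ → ℝ), 0 ≤ t₀ → IsSol p₀ q₀ k φ 0 t₀ T x →
    ∀ t : ℝ, t₀ ≤ t → (t : EReal) < T → |x t| ≤ ε₂ * |x t₀| * exp (-ε₁ * (t - t₀))

/-- `L₂`-stability of the forced system. -/
def L2Stable (p₀ q₀ : ℝ) (k φ : ℝ → ℝ) : Prop :=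
  ∀ η₁ ≥ 0, ∀ η₂ ≥ 0, ∃ η₃ : ℝ, ∀ (t₀ : ℝ) (T : EReal) (x f : ℝ → ℝ), 0 ≤ t₀ → Measurable f →
    IsSol p₀ q₀ k φ f t₀ T x → |x t₀| < η₁ →
    ∫⁻ t in Ici 0, ENNReal.ofReal (f t ^ 2) < ENNReal.ofReal η₂ →
    ∫⁻ t in {t : ℝ | t₀ ≤ t ∧ (t : EReal) < T}, ENNReal.ofReal (x t ^ 2) ≤ ENNReal.ofReal η₃

noncomputable def g (s : ℝ) : ℝ := √s / (1 + √s)
noncomputable def h (x : ℝ) : ℝ := g (x - 1) + g (1 - x)
noncomputable def a (x : ℝ) : ℝ := g (x - 1) - g (1 - x)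

lemma g_cont : Continuous g := by
  unfold g
  exact continuous_sqrt.div (by fun_prop) fun s => by positivity

lemma g_bd (s : ℝ) : 0 ≤ g s ∧ g s ≤ 1 :=
  ⟨by unfold g; positivity, by unfold g; rw [div_le_one (by positivity)]; linarith⟩

lemma g_neg {s : ℝ} (hs : s ≤ 0) : g s = 0 := by simp [g, sqrt_eq_zero'.2 hs]

lemma g_d1 {s : ℝ} (hs : s < 0) : HasDerivAt g 0 s :=
  (hasDerivAt_const s (0 : ℝ)).congr_of_eventuallyEq
    ((eventually_lt_nhds hs).mono fun _ h => g_neg h.le)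

lemma g_d2 {s : ℝ} (hs : 0 < s) : HasDerivAt g (1 / (2 * √s * (1 + √s) ^ 2)) s := by
  have h1 := hasDerivAt_sqrt hs.ne'
  have := sqrt_pos.2 hs
  refine (h1.div (h1.const_add 1) (by positivity)).congr_deriv ?_
  field_simp
  ring

lemma h_bd (x : ℝ) : 0 ≤ h x ∧ h x ≤ 1 := by
  have := g_bd (x - 1)
  have := g_bd (1 - x)
  unfold h
  rcases le_total x 1 with e | e
  · have := g_neg (sub_nonpos.2 e); constructor <;> linarith
  · have := g_neg (sub_nonpos.2 e); constructor <;> linarith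

lemma key (x : ℝ) (hx : x ≠ 1) :
    ∃ a', HasDerivAt a a' x ∧ 0 ≤ 1 + x * a' ∧ 1 / 9 ≤ h x * (1 + x * a') := by
  obtain ⟨r, r0, h1, h2, h3⟩ : ∃ r : ℝ, 0 < r ∧ (x = 1 + r ^ 2 ∨ x = 1 - r ^ 2) ∧ h x = r / (1 + r) ∧
      HasDerivAt a (1 / (2 * r * (1 + r) ^ 2)) x := by
    rcases lt_or_gt_of_ne hx with e | e
    · refine ⟨√(1 - x), sqrt_pos.2 (by linarith), .inr (by rw [sq_sqrt (by linarith)]; ring), ?_, ?_⟩
      · rw [h, g_neg (by linarith), zero_add, g]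
      · exact (((g_d1 (sub_neg.2 e)).comp_sub_const x 1).sub
          ((g_d2 (sub_pos.2 e)).comp_const_sub 1 x)).congr_deriv (by ring)
    · refine ⟨√(x - 1), sqrt_pos.2 (by linarith), .inl (by rw [sq_sqrt (by linarith)]; ring), ?_, ?_⟩
      · rw [h, g_neg (s := 1 - x) (by linarith), add_zero, g]
      · exact (((g_d2 (sub_pos.2 e)).comp_sub_const x 1).sub
          ((g_d1 (sub_neg.2 e)).comp_const_sub 1 x)).congr_deriv (by ring)
  have hx' : 1 - r ^ 2 ≤ x := by rcases h1 with h1 | h1 <;> nlinarith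
  have e : 1 + x * (1 / (2 * r * (1 + r) ^ 2)) = (2 * r * (1 + r) ^ 2 + x) / (2 * r * (1 + r) ^ 2) := by
    field_simp
  refine ⟨_, h3, ?_, ?_⟩
  · rw [e]
    refine div_nonneg (by nlinarith [pow_pos r0 3]) (by positivity)
  · rw [e, h2, div_mul_div_comm, div_le_div_iff₀ (by norm_num) (by positivity)]
    nlinarith [pow_pos r0 2, pow_pos r0 3, pow_pos r0 4, mul_le_mul_of_nonneg_left hx' r0.le]

lemma anti {V V' : ℝ → ℝ} {s t : ℝ} (hst : s ≤ t) (hc : ContinuousOn V (Icc s t))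
    (hd : ∀ u ∈ Ioo s t, HasDerivAt V (V' u) u ∧ V' u ≤ 0) : AntitoneOn V (Icc s t) := by
  refine antitoneOn_of_deriv_nonpos (convex_Icc s t) hc ?_ ?_ <;> rw [interior_Icc]
  · exact fun u hu => (hd u hu).1.differentiableAt.differentiableWithinAt
  · exact fun u hu => by rw [(hd u hu).1.deriv]; exact (hd u hu).2

lemma decay (x : ℝ → ℝ) (s t : ℝ) (hs : 0 ≤ s) (hst : s ≤ t) (hc : ContinuousOn x (Icc s t))
    (hd : ∀ u ∈ Ioo s t, HasDerivAt x (-(x u * (1 / (1 + u) + (1 + 1 / (1 + u)) * h (x u)))) u) :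
    |x t| ≤ exp 2 * |x s| * exp (-(1 / 9) * (t - s)) := by
  classical
  have hp : ∀ u ∈ Ioo s t, 0 < 1 / (1 + u) := fun u hu => by have := hs.trans_lt hu.1; positivity
  have hq : ∀ u ∈ Ioo s t, h (x u) < 1 / (1 + u) + (1 + 1 / (1 + u)) * h (x u) := fun u hu => by
    nlinarith [hp u hu, (h_bd (x u)).1]
  have h1 : AntitoneOn (fun u => x u ^ 2) (Icc s t) := anti hst (hc.pow 2) fun u hu =>
    ⟨(hd u hu).fun_pow 2, by
      have := mul_nonneg (sq_nonneg (x u)) ((h_bd (x u)).1.trans (hq u hu).le)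
      norm_num at this ⊢
      nlinarith⟩
  have h2 : ∀ u ∈ Icc s t, ∀ v ∈ Icc s t, u < v → x u = 1 → x v = 1 → False := by
    intro u hu v hv huv e1 e2
    obtain ⟨w, w1, w2⟩ := exists_between huv
    have hw : w ∈ Ioo s t := ⟨hu.1.trans_lt w1, w2.trans_le hv.2⟩
    have hev : (fun _ => (1 : ℝ)) =ᶠ[𝓝 w] fun u => x u ^ 2 := by
      filter_upwards [Ioo_mem_nhds w1 w2] with y hy
      have hy' : y ∈ Icc s t := ⟨hu.1.trans hy.1.le, hy.2.le.trans hv.2⟩
      have a1 := h1 hu hy' hy.1.le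
      have a2 := h1 hy' hv hy.2.le
      simp only [e1, e2] at a1 a2
      linarith
    have := (((hd w hw).fun_pow 2).congr_of_eventuallyEq hev).unique (hasDerivAt_const w 1)
    have h3 : 1 = x w ^ 2 := hev.self_of_nhds
    have h4 := (h_bd (x w)).1.trans_lt (hq w hw)
    norm_num at this h4
    rcases this with h5 | h5
    · simp [h5] at h3
    · linarith
  let V : ℝ → ℝ := fun u => (x u * exp (a (x u) + 1 / 9 * u)) ^ 2
  have ha : Continuous a := by have := g_cont; unfold a; fun_prop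
  have hV : ContinuousOn V (Icc s t) :=
    (hc.mul ((ha.comp_continuousOn hc).add (by fun_prop)).rexp).pow 2
  have h3 : ∀ u v, s ≤ u → u ≤ v → v ≤ t → (∀ w ∈ Ioo u v, x w ≠ 1) → V v ≤ V u := by
    intro u v a1 a2 a3 hne
    have : ∀ w ∈ Ioo u v, ∃ V', HasDerivAt V V' w ∧ V' ≤ 0 := by
      intro w hw
      have hw' : w ∈ Ioo s t := ⟨a1.trans_lt hw.1, hw.2.trans_le a3⟩
      obtain ⟨a', b1, b2, b3⟩ := key (x w) (hne w hw)
      have d1 := hd w hw'
      have d2 := (d1.fun_mul (((b1.comp w d1).fun_add ((hasDerivAt_id w).const_mul (1 / 9))).exp)).fun_pow 2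
      refine ⟨_, d2, ?_⟩
      simp only [Function.comp, id]
      have c1 := mul_le_mul_of_nonneg_right (hq w hw').le b2
      generalize 1 / (1 + w) + (1 + 1 / (1 + w)) * h (x w) = c at *
      generalize exp (a (x w) + 1 / 9 * w) = E
      have := mul_nonneg (sq_nonneg (x w * E)) (show 0 ≤ c * (1 + x w * a') - 1 / 9 by linarith)
      norm_num at this ⊢
      nlinarith
    choose! V' hV' using this
    exact anti a2 (hV.mono (Icc_subset_Icc a1 a3)) hV' ⟨le_rfl, a2⟩ ⟨a2, le_rfl⟩ a2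
  have h4 : V t ≤ V s := by
    by_cases e : ∃ w ∈ Icc s t, x w = 1
    · obtain ⟨w, hw, e⟩ := e
      exact (h3 w t hw.1 hw.2 le_rfl fun y hy e' =>
        h2 w hw y ⟨hw.1.trans hy.1.le, hy.2.le⟩ hy.1 e e').trans (h3 s w le_rfl hw.1 hw.2
          fun y hy e' => h2 y ⟨hy.1.le, hy.2.le.trans hw.2⟩ w hw hy.2 e' e)
    · exact h3 s t le_rfl hst le_rfl fun y hy e' => e ⟨y, Ioo_subset_Icc_self hy, e'⟩
  have h5 := sq_le_sq.1 h4
  rw [abs_mul, abs_mul, abs_of_pos (exp_pos _), abs_of_pos (exp_pos _), ← le_div_iff₀ (exp_pos _),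
    mul_div_assoc, ← exp_sub] at h5
  refine h5.trans ?_
  rw [mul_right_comm, ← exp_add, mul_comm]
  gcongr
  simp only [a]
  linarith [g_bd (x s - 1), g_bd (1 - x s), g_bd (x t - 1), g_bd (1 - x t)]

theorem result : ∃ (p₀ q₀ : ℝ) (k φ : ℝ → ℝ),
    (∃ ε > 0, ∀ t ≥ 0, ε ≤ k t) ∧ (∀ b ≥ 0, AbsolutelyContinuousOnInterval k 0 b) ∧
    Continuous φ ∧ φ 0 = 0 ∧
    (∃ η₁ η₂, 0 < η₁ ∧ η₁ < η₂ ∧ ∀ σ ≠ 0, η₁ * σ ^ 2 ≤ σ * φ σ ∧ σ * φ σ ≤ η₂ * σ ^ 2) ∧
    ExpStable p₀ q₀ k φ ∧ ¬ L2Stable p₀ q₀ k φ := by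
  have hh : Continuous h := by have := g_cont; unfold h; fun_prop
  refine ⟨-1, 1, fun t => 1 + 1 / (1 + t), fun σ => σ * (1 + h σ), ⟨1, one_pos, fun t ht => ?_⟩,
    fun b hb => ?_, by fun_prop, by simp, ⟨1, 2, one_pos, one_lt_two, fun σ _ => ?_⟩,
    ⟨1 / 9, by norm_num, exp 2, exp_pos 2, ?_⟩, fun H => ?_⟩
  · have : 0 < 1 / (1 + t) := by positivity
    linarith
  · refine ContDiffOn.absolutelyContinuousOnInterval
      (contDiffOn_const.add (contDiffOn_const.div (by fun_prop) fun t ht => ?_))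
    rw [uIcc_of_le hb] at ht
    linarith [ht.1]
  · constructor <;> nlinarith [h_bd σ, sq_nonneg σ]
  · rintro s T x hs ⟨-, h1, h2⟩ t hst htT
    have ac := (h1 t hst htT).1
    have hc : ContinuousOn x (Icc s t) := uIcc_of_le hst ▸ ac.continuousOn
    refine decay x s t hs hst hc fun u hu => ?_
    let G : ℝ → ℝ := fun u => -(x u * (1 / (1 + u) + (1 + 1 / (1 + u)) * h (x u)))
    have hinv : ContinuousOn (fun u : ℝ => 1 / (1 + u)) (Icc s t) :=
      continuousOn_const.div (by fun_prop) fun u hu => by linarith [hu.1]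
    have hG : ContinuousOn G (Icc s t) :=
      (hc.mul (hinv.add ((hinv.const_add 1).mul (hh.comp_continuousOn hc)))).neg
    have e : ∀ v ∈ Icc s t, x v = x s + ∫ w in s..v, G w := by
      intro v hv
      have := (ac.mono (uIcc_subset_uIcc_left (by rwa [uIcc_of_le hst]))).integral_deriv_eq_sub
      rw [← sub_eq_iff_eq_add', ← this]
      refine intervalIntegral.integral_congr_ae ?_
      filter_upwards [h2] with w hw hw'
      rw [uIoc_of_le hv.1] at hw'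
      rw [(hw hw'.1.le (lt_of_le_of_lt (by exact_mod_cast hw'.2.trans hv.2) htT)).deriv]
      simp only [G, one_mul, Pi.zero_apply]
      ring
    have hn := Icc_mem_nhds hu.1 hu.2
    have d := (intervalIntegral.integral_hasDerivAt_right
      ((hG.mono (Icc_subset_Icc_right hu.2.le)).intervalIntegrable_of_Icc hu.1.le)
      ((hG.mono Ioo_subset_Icc_self).stronglyMeasurableAtFilter isOpen_Ioo u hu)
      (hG.continuousAt hn)).const_add (x s)
    exact d.congr_of_eventuallyEq (mem_of_superset hn e)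
  · have hi : IntegrableOn (fun t : ℝ => (1 / (1 + t)) ^ 2) (Ici 0) := by
      rw [integrableOn_Ici_iff_integrableOn_Ioi]
      refine (integrableOn_add_rpow_Ioi_of_lt (a := -2) (c := 0) (m := 1) (by norm_num)
        (by norm_num)).congr_fun (fun t ht => ?_) measurableSet_Ioi
      simp only
      rw [rpow_neg (by linarith [mem_Ioi.1 ht]), rpow_two, add_comm, one_div, inv_pow]
    obtain ⟨η, hη⟩ := H 2 (by norm_num) ((∫ t in Ici (0 : ℝ), (1 / (1 + t)) ^ 2) + 1)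
      (add_nonneg (integral_nonneg fun _ => sq_nonneg _) zero_le_one)
    have := hη 0 ⊤ (fun _ => 1) (fun t => 1 / (1 + t)) le_rfl (by fun_prop)
      ⟨EReal.coe_lt_top 0, fun b _ _ => ⟨contDiffOn_const.absolutelyContinuousOnInterval,
        intervalIntegrable_const⟩, Eventually.of_forall fun t _ _ =>
          (hasDerivAt_const t 1).congr_deriv (by simp [h, g])⟩ (by norm_num) (by
        rw [← ofReal_integral_eq_lintegral_ofReal hi (Eventually.of_forall fun _ => sq_nonneg _),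
          ENNReal.ofReal_lt_ofReal_iff_of_nonneg (integral_nonneg fun _ => sq_nonneg _)]
        linarith)
    simp [EReal.coe_lt_top, Ici_def] at this

end Pool.Agent.Results.MP_d56d33_an.NotEquivalent
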